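import Mathlib

/-!
# Two-parameter Brouwer inequality: the determinantal colouring core

`Mat z c j i = ∑_{v : c v = i} z j v`: block sums of the functions `z j` over the colour classes.
-/

set_option autoImplicit false

open Finset

namespace Pool.Agent.Helper827.Brou

/-- Block sums of a family of functions over the classes of a colouring. -/
def Mat {V : Type*} [Fintype V] {N : ℕ} (z : Fin N → V → ℝ) (c : V → Fin N) :
    Matrix (Fin N) (Fin N) ℝ :=
  fun j i => ∑ v, if c v = i then z j v else 0

/-- existence of a colouring with nonsingular block sums -/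
theorem exists_good {V : Type*} [Fintype V] [DecidableEq V] (N : ℕ) :
    ∀ (z : Fin (N + 1) → V → ℝ), LinearIndependent ℝ z → (∑ v, z 0 v ≠ 0) →
      ∃ c : V → Fin (N + 1), (Mat z c).det ≠ 0 := by
  induction N with
  | zero =>
    intro z _ h0
    refine ⟨fun _ => 0, ?_⟩
    have h : (Mat z fun _ => (0 : Fin (0 + 1))).det = Mat z (fun _ => 0) 0 0 :=
      Matrix.det_fin_one _
    rw [h]
    simpa [Mat] using h0
  | succ N ih =>
    intro z hli h0
    obtain ⟨c, hc⟩ := ih (fun j => z j.castSucc)
      (hli.comp Fin.castSucc (Fin.castSucc_injective _)) (by simpa using h0)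
    -- the bordered matrix
    let B : (Fin (N + 2) → ℝ) → Matrix (Fin (N + 2)) (Fin (N + 2)) ℝ := fun x j i =>
      Fin.lastCases (x j) (fun i' => ∑ u, if c u = i' then z j u else 0) i
    let S : Fin (N + 2) → Matrix (Fin (N + 1)) (Fin (N + 1)) ℝ := fun j a b =>
      ∑ u, if c u = b then z (j.succAbove a) u else 0
    have hdet : ∀ x, (B x).det =
        ∑ j : Fin (N + 2), (-1) ^ ((j : ℕ) + ((Fin.last (N + 1) : Fin (N + 2)) : ℕ)) * x j
          * (S j).det := by
      intro x
      rw [Matrix.det_succ_column (B x) (Fin.last (N + 1))]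
      refine Finset.sum_congr rfl fun j _ => ?_
      congr 1
      · simp [B]
      · congr 1
        ext a b
        simp only [Matrix.submatrix_apply, Fin.succAbove_last, B, S, Fin.lastCases_castSucc]
    have hex : ∃ v, (B (fun j => z j v)).det ≠ 0 := by
      by_contra hcon
      push Not at hcon
      have hz : ∑ j : Fin (N + 2),
          ((-1 : ℝ) ^ ((j : ℕ) + ((Fin.last (N + 1) : Fin (N + 2)) : ℕ)) * (S j).det) • z j = 0 := by
        ext v
        have := hcon v
        rw [hdet] at this
        simp only [Finset.sum_apply, Pi.smul_apply, smul_eq_mul, Pi.zero_apply]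
        rw [← this]
        refine Finset.sum_congr rfl fun j _ => by ring
      have h1 := Fintype.linearIndependent_iff.mp hli _ hz (Fin.last (N + 1))
      have h2 : (S (Fin.last (N + 1))).det ≠ 0 := by
        have : S (Fin.last (N + 1)) = Mat (fun j => z j.castSucc) c := by
          ext a b
          simp [S, Mat]
        rw [this]; exact hc
      have h3 : ((-1 : ℝ) ^ (((Fin.last (N + 1) : Fin (N + 2)) : ℕ)
        + ((Fin.last (N + 1) : Fin (N + 2)) : ℕ))) ≠ 0 := pow_ne_zero _ (by norm_num)
      exact (mul_ne_zero h3 h2) h1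
    obtain ⟨v, hv⟩ := hex
    refine ⟨fun u => if u = v then Fin.last (N + 1) else (c u).castSucc, ?_⟩
    intro hzero
    apply hv
    rw [← hzero]
    set c' : V → Fin (N + 2) := fun u => if u = v then Fin.last (N + 1) else (c u).castSucc with hc'
    have hne : (c v).castSucc ≠ Fin.last (N + 1) := (Fin.castSucc_lt_last _).ne
    rw [← Matrix.det_updateCol_add_smul_self (Mat z c') hne (1 : ℝ)]
    congr 1
    ext j i
    rw [Matrix.updateCol_apply]
    refine Fin.lastCases ?_ (fun i' => ?_) i
    · rw [if_neg hne.symm]
      simp only [B, Fin.lastCases_last, Mat]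
      rw [Finset.sum_eq_single v]
      · simp [hc']
      · intro u _ hu
        have : c' u ≠ Fin.last (N + 1) := by
          simp only [hc', if_neg hu]
          exact (Fin.castSucc_lt_last _).ne
        simp [this]
      · simp
    · simp only [B, Fin.lastCases_castSucc]
      have hlast : Mat z c' j (Fin.last (N + 1)) = z j v := by
        simp only [Mat]
        rw [Finset.sum_eq_single v]
        · simp [hc']
        · intro u _ hu
          have : c' u ≠ Fin.last (N + 1) := by
            simp only [hc', if_neg hu]
            exact (Fin.castSucc_lt_last _).ne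
          simp [this]
        · simp
      have hold : ∀ b : Fin (N + 1), Mat z c' j b.castSucc =
          (∑ u, if c u = b then z j u else 0) - (if c v = b then z j v else 0) := by
        intro b
        simp only [Mat]
        rw [← Finset.add_sum_erase _ _ (Finset.mem_univ v),
          ← Finset.add_sum_erase (Finset.univ) (fun u => if c u = b then z j u else 0)
            (Finset.mem_univ v)]
        have h1 : c' v ≠ b.castSucc := by
          simp only [hc', if_true]
          exact (Fin.castSucc_lt_last _).ne'
        rw [if_neg h1]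
        have h2 : ∑ x ∈ Finset.univ.erase v, (if c' x = b.castSucc then z j x else 0)
            = ∑ x ∈ Finset.univ.erase v, (if c x = b then z j x else 0) := by
          refine Finset.sum_congr rfl fun x hx => ?_
          have hxv : x ≠ v := (Finset.mem_erase.mp hx).1
          have : (c' x = b.castSucc) ↔ c x = b := by
            simp only [hc', if_neg hxv]
            exact Fin.castSucc_inj
          simp only [this]
        rw [h2]; ring
      by_cases hi : i' = c v
      · subst hi
        rw [if_pos rfl, hold, hlast]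
        simp
      · rw [if_neg (by simpa [Fin.castSucc_inj] using hi), hold]
        have : c v ≠ i' := fun h => hi h.symm
        simp [this]

/-- The determinantal (oblique) projection attached to a maximal colouring. -/
theorem exists_proj {V : Type*} [Fintype V] [DecidableEq V] (N : ℕ)
    (z : Fin (N + 1) → V → ℝ) (hli : LinearIndependent ℝ z) (h0 : ∑ v, z 0 v ≠ 0) :
    ∃ P : V → V → ℝ,
      (∀ v u, 0 ≤ P v v - P v u) ∧ (∀ v u, P v v - P v u ≤ 1) ∧ (∀ u, ∑ v, P v u = 1) ∧
      (∑ v, P v v = (N : ℝ) + 1) ∧
      (∀ (L : V → V → ℝ) (μ : Fin (N + 1) → ℝ),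
        (∀ j v, ∑ u, L v u * z j u = μ j * z j v) → ∑ v, ∑ u, L v u * P u v = ∑ j, μ j) ∧
      (∀ j v, ∑ u, P v u * z j u = z j v) ∧
      (∃ w : Fin (N + 1) → V → ℝ, ∀ v u, P v u = ∑ j, w j u * z j v) := by
  obtain ⟨c₀, hc₀⟩ := exists_good N z hli h0
  have : Nonempty (V → Fin (N + 1)) := ⟨c₀⟩
  obtain ⟨c, hc⟩ := Finite.exists_max (fun c : V → Fin (N + 1) => |(Mat z c).det|)
  have hpos : 0 < |(Mat z c).det| := lt_of_lt_of_le (abs_pos.mpr hc₀) (hc c₀)
  have hdet : (Mat z c).det ≠ 0 := abs_pos.mp hpos
  have hunit : IsUnit (Mat z c).det := isUnit_iff_ne_zero.mpr hdet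
  set W : Matrix (Fin (N + 1)) (Fin (N + 1)) ℝ := (Mat z c)⁻¹ with hW
  have hWM : W * Mat z c = 1 := Matrix.nonsing_inv_mul _ hunit
  have hMW : Mat z c * W = 1 := Matrix.mul_nonsing_inv _ hunit
  -- the coordinates
  let lam : V → Fin (N + 1) → ℝ := fun v i => ∑ j, W i j * z j v
  have hclass : ∀ B i, ∑ v, (if c v = B then lam v i else 0) = if i = B then 1 else 0 := by
    intro B i
    have h1 : (W * Mat z c) i B = if i = B then 1 else 0 := by
      rw [hWM, Matrix.one_apply]
    rw [← h1, Matrix.mul_apply]
    simp only [Mat, Finset.mul_sum]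
    rw [Finset.sum_comm]
    refine Finset.sum_congr rfl fun v _ => ?_
    by_cases h : c v = B
    · simp [h, lam]
    · simp [h]
  have hmove : ∀ v A, lam v A ≤ lam v (c v) := by
    intro v A
    have hM' : Mat z (Function.update c v A) = Mat z c +
        Matrix.replicateCol Unit (fun j => z j v) *
          Matrix.replicateRow Unit (fun i => (if i = A then (1 : ℝ) else 0)
            - (if i = c v then 1 else 0)) := by
      ext j i
      simp only [Matrix.add_apply, Matrix.mul_apply, Matrix.replicateCol_apply,
        Matrix.replicateRow_apply, Finset.univ_unique, Finset.sum_singleton, Mat]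
      rw [← Finset.add_sum_erase _ _ (Finset.mem_univ v),
          ← Finset.add_sum_erase (Finset.univ) (fun u => if c u = i then z j u else 0)
            (Finset.mem_univ v)]
      have h2 : ∑ x ∈ Finset.univ.erase v, (if Function.update c v A x = i then z j x else 0)
          = ∑ x ∈ Finset.univ.erase v, (if c x = i then z j x else 0) := by
        refine Finset.sum_congr rfl fun x hx => ?_
        have hxv : x ≠ v := (Finset.mem_erase.mp hx).1
        rw [Function.update_of_ne hxv]
      rw [h2, Function.update_self]
      by_cases ha : A = i <;> by_cases hb : c v = i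
      · simp [ha, hb]
      · have : ¬ i = c v := fun h => hb h.symm
        simp [ha, hb, this]; ring
      · have : ¬ i = A := fun h => ha h.symm
        simp [ha, hb, this]; ring
      · have h3 : ¬ i = A := fun h => ha h.symm
        have h4 : ¬ i = c v := fun h => hb h.symm
        simp [ha, hb, h3, h4]
    have hd : (Mat z (Function.update c v A)).det = (Mat z c).det * (1 + lam v A - lam v (c v)) := by
      rw [hM', Matrix.det_add_replicateCol_mul_replicateRow hunit]
      congr 1
      rw [Matrix.det_unique, Matrix.add_apply, Matrix.one_apply_eq, ← hW, Matrix.mul_assoc]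
      simp only [Matrix.mul_apply, Matrix.replicateCol_apply,
        Matrix.replicateRow_apply, sub_mul, Finset.sum_sub_distrib, ite_mul, one_mul, zero_mul,
        Finset.sum_ite_eq', Finset.mem_univ, if_true, lam]
      ring
    have h5 := hc (Function.update c v A)
    simp only [hd, abs_mul] at h5
    have h6 : |1 + lam v A - lam v (c v)| ≤ 1 := by
      by_contra hcon
      push Not at hcon
      nlinarith
    have h7 := (abs_le.mp h6).2
    linarith
  have hmove2 : ∀ v A, lam v (c v) - lam v A ≤ 1 := by
    intro v A
    by_cases hA : A = c v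
    · subst hA; simp
    have h1 : ∑ u, (if c u = c v then lam u (c u) - lam u A else 0) = 1 := by
      have e1 := hclass (c v) (c v)
      have e2 := hclass (c v) A
      rw [if_pos rfl] at e1
      rw [if_neg hA] at e2
      calc ∑ u, (if c u = c v then lam u (c u) - lam u A else 0)
          = ∑ u, ((if c u = c v then lam u (c v) else 0) - (if c u = c v then lam u A else 0)) := by
            refine Finset.sum_congr rfl fun u _ => ?_
            by_cases h : c u = c v
            · simp [h]
            · simp [h]
        _ = 1 := by rw [Finset.sum_sub_distrib, e1, e2]; ring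
    have h2 : (if c v = c v then lam v (c v) - lam v A else 0) ≤
        ∑ u, (if c u = c v then lam u (c u) - lam u A else 0) := by
      refine Finset.single_le_sum (f := fun u => if c u = c v then lam u (c u) - lam u A else 0)
        (fun u _ => ?_) (Finset.mem_univ v)
      by_cases h : c u = c v
      · simp only [h, if_true]
        have := hmove u A
        rw [h] at this
        linarith
      · simp [h]
    rw [if_pos rfl, h1] at h2
    exact h2
  refine ⟨fun v u => lam v (c u), ?_, ?_, ?_, ?_, ?_, ?_, ?_⟩
  · intro v u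
    have := hmove v (c u)
    simp only; linarith
  · intro v u
    exact hmove2 v (c u)
  · intro u
    have : ∑ v, lam v (c u) = ∑ B, ∑ v, (if c v = B then lam v (c u) else 0) := by
      symm
      rw [Finset.sum_comm]
      refine Finset.sum_congr rfl fun v _ => ?_
      simp
    simp only
    rw [this, Finset.sum_congr rfl fun B _ => hclass B (c u)]
    simp
  · have : ∑ v, lam v (c v) = ∑ B, ∑ v, (if c v = B then lam v B else 0) := by
      symm
      rw [Finset.sum_comm]
      refine Finset.sum_congr rfl fun v _ => ?_
      simp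
    simp only
    rw [this, Finset.sum_congr rfl fun B _ => hclass B B]
    simp
  · intro L μ hL
    have h1 : ∀ v, ∑ u, L v u * lam u (c v) = ∑ j, W (c v) j * (μ j * z j v) := by
      intro v
      simp only [lam, Finset.mul_sum]
      rw [Finset.sum_comm]
      refine Finset.sum_congr rfl fun j _ => ?_
      rw [← hL j v, Finset.mul_sum]
      refine Finset.sum_congr rfl fun u _ => by ring
    simp only
    rw [Finset.sum_congr rfl fun v _ => h1 v, Finset.sum_comm]
    refine Finset.sum_congr rfl fun j _ => ?_
    have h2 : ∑ v, W (c v) j * (μ j * z j v) = μ j * ∑ i, Mat z c j i * W i j := by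
      simp only [Mat, Finset.sum_mul, Finset.mul_sum]
      rw [Finset.sum_comm]
      refine Finset.sum_congr rfl fun v _ => ?_
      simp only [ite_mul, zero_mul, mul_ite, mul_zero, Finset.sum_ite_eq, Finset.mem_univ, if_true]
      ring
    rw [h2, ← Matrix.mul_apply, hMW, Matrix.one_apply_eq, mul_one]
  · intro j v
    have h1 : ∑ u, lam v (c u) * z j u = ∑ i, lam v i * Mat z c j i := by
      simp only [Mat, Finset.mul_sum]
      rw [Finset.sum_comm]
      refine Finset.sum_congr rfl fun u _ => ?_
      simp
    simp only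
    rw [h1]
    calc ∑ i, lam v i * Mat z c j i = ∑ k, (∑ i, Mat z c j i * W i k) * z k v := by
          simp only [lam, Finset.sum_mul]
          rw [Finset.sum_comm]
          refine Finset.sum_congr rfl fun k _ => ?_
          refine Finset.sum_congr rfl fun i _ => by ring
      _ = ∑ k, (if j = k then (1 : ℝ) else 0) * z k v := by
          refine Finset.sum_congr rfl fun k _ => ?_
          rw [← Matrix.mul_apply, hMW, Matrix.one_apply]
      _ = z j v := by simp
  · exact ⟨fun j u => W (c u) j, fun v u => rfl⟩

/-- **Two-parameter core inequality.** `z` a linearly independent family (with the first function of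
nonzero sum), `z'` a linearly independent subfamily in the same sense; `w` symmetric weights in `[0,1]`;
both families consist of eigenvectors of the weighted Laplacian. -/
theorem core {V : Type*} [Fintype V] [DecidableEq V] (N M : ℕ)
    (z : Fin (N + 1) → V → ℝ) (hli : LinearIndependent ℝ z) (h0 : ∑ v, z 0 v ≠ 0)
    (z' : Fin (M + 1) → V → ℝ) (hli' : LinearIndependent ℝ z') (h0' : ∑ v, z' 0 v ≠ 0)
    (hsub : ∀ j, ∃ i, z' j = z i)
    (w : V → V → ℝ) (hw0 : ∀ v u, 0 ≤ w v u) (hw1 : ∀ v u, w v u ≤ 1)
    (hws : ∀ v u, w v u = w u v) (hwd : ∀ v, w v v = 0)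
    (μ : Fin (N + 1) → ℝ) (μ' : Fin (M + 1) → ℝ)
    (hμ : ∀ j v, ∑ u, w v u * (z j v - z j u) = μ j * z j v)
    (hμ' : ∀ j v, ∑ u, w v u * (z' j v - z' j u) = μ' j * z' j v) :
    (∑ v, ∑ u, w v u) - ∑ j, μ j - ∑ j, μ' j ≤
      ((Fintype.card V : ℝ) - (N + 1)) * ((Fintype.card V : ℝ) - (M + 1) + 1) := by
  obtain ⟨P, hP0, hP1, hPc, hPt, hPL, hPz, -⟩ := exists_proj N z hli h0
  obtain ⟨T, hT0, hT1, hTc, hTt, hTL, -, ⟨b, hb⟩⟩ := exists_proj M z' hli' h0'
  set n : ℝ := (Fintype.card V : ℝ) with hn
  -- PT = T
  have hPT : ∀ v u, ∑ x, P v x * T x u = T v u := by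
    intro v u
    have e1 : ∀ j, ∑ x, P v x * z' j x = z' j v := by
      intro j
      obtain ⟨i, hi⟩ := hsub j
      rw [hi]; exact hPz i v
    simp only [hb, Finset.mul_sum]
    rw [Finset.sum_comm]
    refine Finset.sum_congr rfl fun j _ => ?_
    rw [← e1 j, Finset.mul_sum]
    refine Finset.sum_congr rfl fun x _ => by ring
  -- edge sums
  have key : ∀ (K : ℕ) (y : Fin (K + 1) → V → ℝ) (ν : Fin (K + 1) → ℝ) (Q : V → V → ℝ),
      (∀ j v, ∑ u, w v u * (y j v - y j u) = ν j * y j v) →
      (∀ (L : V → V → ℝ) (μ : Fin (K + 1) → ℝ),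
        (∀ j v, ∑ u, L v u * y j u = μ j * y j v) → ∑ v, ∑ u, L v u * Q u v = ∑ j, μ j) →
      ∑ v, ∑ u, w v u * (Q v v - Q v u) = ∑ j, ν j := by
    intro K y ν Q hy hQ
    have h1 := hQ (fun v u => (if v = u then ∑ x, w v x else 0) - w v u) ν (by
      intro j v
      rw [← hy j v]
      simp only [sub_mul, Finset.sum_sub_distrib, ite_mul, zero_mul, Finset.sum_ite_eq,
        Finset.mem_univ, if_true, mul_sub, Finset.sum_mul])
    rw [← h1]
    simp only [sub_mul, Finset.sum_sub_distrib, ite_mul, zero_mul, Finset.sum_ite_eq,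
        Finset.mem_univ, if_true, mul_sub, Finset.sum_mul]
    congr 1
    rw [Finset.sum_comm]
    refine Finset.sum_congr rfl fun v _ => Finset.sum_congr rfl fun u _ => ?_
    rw [hws]
  have hEP := key N z μ P hμ hPL
  have hET := key M z' μ' T hμ' hTL
  -- the second one with swapped roles
  have hET' : ∑ v, ∑ u, w v u * (T u u - T u v) = ∑ j, μ' j := by
    rw [← hET, Finset.sum_comm]
    refine Finset.sum_congr rfl fun v _ => Finset.sum_congr rfl fun u _ => ?_
    rw [hws]
  have hpair : ∀ v u, w v u * (1 - (P v v - P v u) - (T u u - T u v)) ≤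
      (1 - (P v v - P v u)) * (1 - (T u u - T u v)) - (if v = u then 1 else 0) := by
    intro v u
    by_cases h : v = u
    · subst h
      simp [hwd]
    · rw [if_neg h]
      have a0 := hP0 v u
      have a1 := hP1 v u
      have b0 := hT0 u v
      have b1 := hT1 u v
      have c0 := hw0 v u
      have c1 := hw1 v u
      set D := P v v - P v u
      set D' := T u u - T u v
      have h1 : 0 ≤ (1 - D) * (1 - D') := mul_nonneg (by linarith) (by linarith)
      have h2 : 0 ≤ D * D' := mul_nonneg a0 b0
      nlinarith [mul_nonneg c0 h2, mul_nonneg (sub_nonneg.mpr c1) h1]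
  have hsum : ∑ v, ∑ u, w v u * (1 - (P v v - P v u) - (T u u - T u v)) ≤
      ∑ v, ∑ u, ((1 - (P v v - P v u)) * (1 - (T u u - T u v)) - (if v = u then 1 else 0)) :=
    Finset.sum_le_sum fun v _ => Finset.sum_le_sum fun u _ => hpair v u
  have hL1 : ∑ v, ∑ u, w v u * (1 - (P v v - P v u) - (T u u - T u v)) =
      (∑ v, ∑ u, w v u) - ∑ j, μ j - ∑ j, μ' j := by
    rw [← hEP, ← hET']
    simp only [← Finset.sum_sub_distrib]
    refine Finset.sum_congr rfl fun v _ => Finset.sum_congr rfl fun u _ => by ring
  -- right-hand side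
  have r1 : ∑ v : V, ∑ u : V, (1 : ℝ) = n * n := by simp [hn]
  have r2 : ∑ v, ∑ u : V, P v v = n * (N + 1) := by
    simp only [Finset.sum_const, Finset.card_univ, nsmul_eq_mul, ← Finset.mul_sum, hPt, hn]
  have r3 : ∑ v, ∑ u, P v u = n := by
    rw [Finset.sum_comm, Finset.sum_congr rfl fun u _ => hPc u]; simp [hn]
  have r4 : ∑ v : V, ∑ u, T u u = n * (M + 1) := by
    simp only [hTt, Finset.sum_const, Finset.card_univ, nsmul_eq_mul, hn]
  have r5 : ∑ v, ∑ u, T u v = n := by
    rw [Finset.sum_congr rfl fun v _ => hTc v]; simp [hn]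
  have r6 : ∑ v, ∑ u, P v v * T u u = (N + 1) * (M + 1) := by
    simp only [← Finset.mul_sum, hTt, ← Finset.sum_mul, hPt]
  have r7 : ∑ v, ∑ u, P v v * T u v = N + 1 := by
    simp only [← Finset.mul_sum, hTc, mul_one, hPt]
  have r8 : ∑ v, ∑ u, P v u * T u u = M + 1 := by
    rw [Finset.sum_comm]
    simp only [← Finset.sum_mul, hPc, one_mul, hTt]
  have r9 : ∑ v, ∑ u, P v u * T u v = M + 1 := by
    simp only [hPT, hTt]
  have r10 : ∑ v : V, ∑ u, (if v = u then (1 : ℝ) else 0) = n := by simp [hn]
  have hR : ∑ v, ∑ u, ((1 - (P v v - P v u)) * (1 - (T u u - T u v)) - (if v = u then 1 else 0)) =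
      (n - (N + 1)) * (n - (M + 1) + 1) := by
    have : ∀ v u, ((1 - (P v v - P v u)) * (1 - (T u u - T u v)) - (if v = u then (1 : ℝ) else 0)) =
        1 - P v v + P v u - T u u + T u v + P v v * T u u - P v v * T u v - P v u * T u u
          + P v u * T u v - (if v = u then (1 : ℝ) else 0) := by
      intro v u; ring
    simp only [this, Finset.sum_sub_distrib, Finset.sum_add_distrib, r1, r2, r3, r4, r5, r6, r7, r8,
      r9, r10]
    ring
  rw [hL1, hR] at hsum
  exact hsum

end Pool.Agent.Helper827.Brou
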