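import Pool.Agent.Helper827.Brou.Core

/-!
# Two-parameter Brouwer inequality for Laplacian eigenvalues of simple graphs
-/

set_option autoImplicit false

open Finset

namespace Pool.Agent.Helper827.Brou

/-- the inequality for a full eigenbasis, sorted nonincreasingly -/
theorem basisForm {V : Type*} [Fintype V] [DecidableEq V] (n : ℕ) (hn : Fintype.card V = n)
    (w : V → V → ℝ) (hw0 : ∀ v u, 0 ≤ w v u) (hw1 : ∀ v u, w v u ≤ 1)
    (hws : ∀ v u, w v u = w u v) (hwd : ∀ v, w v v = 0)
    (b : Fin n → V → ℝ) (hb : LinearIndependent ℝ b) (ev : Fin n → ℝ) (hev : Antitone ev)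
    (hev0 : ∀ i, 0 ≤ ev i)
    (heig : ∀ i v, ∑ u, w v u * (b i v - b i u) = ev i * b i v)
    (htr : ∑ i, ev i = ∑ v, ∑ u, w v u)
    (k l : ℕ) (hkl : k ≤ l) (hl : l + 1 ≤ n) :
    (∑ i : Fin n, if (i : ℕ) < k then ev i else 0) + (∑ i : Fin n, if (i : ℕ) < l then ev i else 0)
      ≤ (∑ v, ∑ u, w v u) + k * (l + 1) := by
  -- an eigenvector with nonzero sum
  have h1 : ∃ i, ∑ v, b i v ≠ 0 := by
    by_contra hcon
    push Not at hcon
    have hspan : Submodule.span ℝ (Set.range b) = ⊤ := by
      have : Nonempty (Fin n) := ⟨⟨0, by omega⟩⟩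
      apply hb.span_eq_top_of_card_eq_finrank
      simp [hn]
    let φ : (V → ℝ) →ₗ[ℝ] ℝ :=
      { toFun := fun f => ∑ v, f v
        map_add' := fun f g => by simp [Finset.sum_add_distrib]
        map_smul' := fun c f => by simp [Finset.mul_sum] }
    have hle : Submodule.span ℝ (Set.range b) ≤ LinearMap.ker φ := by
      rw [Submodule.span_le]
      rintro _ ⟨i, rfl⟩
      exact hcon i
    rw [hspan] at hle
    have h2 : (fun _ : V => (1 : ℝ)) ∈ LinearMap.ker φ := hle Submodule.mem_top
    have h3 : ∑ _v : V, (1 : ℝ) = 0 := h2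
    simp [hn] at h3
    omega
  obtain ⟨i0, hi0⟩ := h1
  have hz0 : ev i0 = 0 := by
    have h2 : ∑ v, ∑ u, w v u * (b i0 v - b i0 u) = 0 := by
      have h3 : ∑ v, ∑ u, w v u * (b i0 v - b i0 u) = ∑ v, ∑ u, -(w v u * (b i0 v - b i0 u)) := by
        conv_rhs => rw [Finset.sum_comm]
        refine Finset.sum_congr rfl fun v _ => Finset.sum_congr rfl fun u _ => ?_
        rw [hws v u]; ring
      simp only [Finset.sum_neg_distrib] at h3
      linarith
    simp only [heig, ← Finset.mul_sum] at h2
    rcases mul_eq_zero.mp h2 with h | h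
    · exact h
    · exact absurd h hi0
  let last : Fin n := ⟨n - 1, by omega⟩
  have hlast : ev last = 0 := by
    apply le_antisymm _ (hev0 _)
    rw [← hz0]
    exact hev (Fin.mk_le_mk.mpr (by have := i0.isLt; omega))
  have hsw : ∀ i, ev (Equiv.swap i0 last i) = ev i := by
    intro i
    by_cases h : i = i0
    · subst h; rw [Equiv.swap_apply_left, hlast, hz0]
    · by_cases h' : i = last
      · subst h'; rw [Equiv.swap_apply_right, hlast, hz0]
      · rw [Equiv.swap_apply_of_ne_of_ne h h']
  let E : ℕ → ℝ := fun i => if h : i < n then ev ⟨i, h⟩ else 0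
  have hE : ∀ k, k ≤ n → (∑ i : Fin n, if (i : ℕ) < k then ev i else 0) = ∑ i ∈ range k, E i := by
    intro k hk
    have : ∀ i : Fin n, (if (i : ℕ) < k then ev i else 0) = (fun i : ℕ => if i < k then E i else 0) i.val := by
      intro i
      simp only [E, i.isLt, dif_pos, Fin.eta]
    simp only [this]
    rw [Fin.sum_univ_eq_sum_range (fun i : ℕ => if i < k then E i else 0) n, ← Finset.sum_filter]
    congr 1
    ext i
    simp; omega
  have hEall : ∑ i ∈ range n, E i = ∑ v, ∑ u, w v u := by
    rw [← hE n le_rfl, ← htr]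
    exact Finset.sum_congr rfl fun i _ => by simp
  have hEtail : ∀ k (K : ℕ) (hK : K + 1 + k = n), ∑ j : Fin (K + 1), ev ⟨n - 1 - j, by omega⟩ =
      (∑ v, ∑ u, w v u) - ∑ i ∈ range k, E i := by
    intro k K hK
    have h2 : ∀ j : Fin (K + 1), ev ⟨n - 1 - j, by omega⟩ = (fun j : ℕ => E (k + (K + 1 - 1 - j))) j.val := by
      intro j
      have hj := j.isLt
      have : k + (K + 1 - 1 - (j : ℕ)) = n - 1 - j := by omega
      simp only [this, E]
      rw [dif_pos (by omega)]
    simp only [h2]
    have h4 := Finset.sum_range_add E k (K + 1)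
    rw [show k + (K + 1) = n by omega, hEall] at h4
    rw [Fin.sum_univ_eq_sum_range (fun j : ℕ => E (k + (K + 1 - 1 - j))) (K + 1),
      Finset.sum_range_reflect (fun j => E (k + j)) (K + 1), h4]
    ring
  obtain ⟨N, hN⟩ : ∃ N, N + 1 + k = n := ⟨n - 1 - k, by omega⟩
  obtain ⟨M, hM⟩ : ∃ M, M + 1 + l = n := ⟨n - 1 - l, by omega⟩
  have hlastb : Equiv.swap i0 last last = i0 := Equiv.swap_apply_right _ _
  have hc := core N M (fun j => b (Equiv.swap i0 last ⟨n - 1 - j, by omega⟩))
    (hb.comp (fun j : Fin (N + 1) => Equiv.swap i0 last ⟨n - 1 - j, by omega⟩) (by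
      intro j j' h
      have h2 := (Equiv.swap i0 last).injective h
      have h3 := congrArg Fin.val h2
      have := j.isLt
      have := j'.isLt
      simp only at h3
      ext; omega))
    (by
      have : (⟨n - 1 - ((0 : Fin (N + 1)) : ℕ), by omega⟩ : Fin n) = last := by
        ext; simp [last]
      rw [this, hlastb]; exact hi0)
    (fun j => b (Equiv.swap i0 last ⟨n - 1 - j, by omega⟩))
    (hb.comp (fun j : Fin (M + 1) => Equiv.swap i0 last ⟨n - 1 - j, by omega⟩) (by
      intro j j' h
      have h2 := (Equiv.swap i0 last).injective h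
      have h3 := congrArg Fin.val h2
      have := j.isLt
      have := j'.isLt
      simp only at h3
      ext; omega))
    (by
      have : (⟨n - 1 - ((0 : Fin (M + 1)) : ℕ), by omega⟩ : Fin n) = last := by
        ext; simp [last]
      rw [this, hlastb]; exact hi0)
    (fun j => ⟨⟨j.val, by omega⟩, rfl⟩)
    w hw0 hw1 hws hwd
    (fun j => ev ⟨n - 1 - j, by omega⟩) (fun j => ev ⟨n - 1 - j, by omega⟩)
    (fun j v => by rw [heig, hsw]) (fun j v => by rw [heig, hsw])
  rw [hEtail k N hN, hEtail l M hM, hn] at hc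
  rw [hE k (by omega), hE l (by omega)]
  have e1 : (n : ℝ) - (N + 1) = k := by rw [← hN]; push_cast; ring
  have e2 : (n : ℝ) - (M + 1) = l := by rw [← hM]; push_cast; ring
  rw [e1, e2] at hc
  linarith

/-- the Laplacian spectrum of `G`, nonincreasing -/
noncomputable def ev {V : Type*} [Fintype V] [DecidableEq V] (G : SimpleGraph V)
    [DecidableRel G.Adj] : Fin (Fintype.card V) → ℝ :=
  (G.isHermitian_lapMatrix ℝ).eigenvalues₀

theorem lap_apply {V : Type*} [Fintype V] [DecidableEq V] (G : SimpleGraph V)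
    [DecidableRel G.Adj] (x : V → ℝ) (v : V) :
    (G.lapMatrix ℝ).mulVec x v = ∑ u, (if G.Adj v u then (1 : ℝ) else 0) * (x v - x u) := by
  rw [SimpleGraph.lapMatrix_mulVec_apply]
  simp only [ite_mul, one_mul, zero_mul, ← Finset.sum_filter, Finset.sum_sub_distrib]
  congr 1
  · rw [Finset.sum_const, nsmul_eq_mul, ← SimpleGraph.card_neighborFinset_eq_degree]
    congr 3
    ext u
    simp
  · apply Finset.sum_congr _ (fun _ _ => rfl)
    ext u
    simp

/-- **Two-parameter Brouwer inequality.** For `k ≤ l < n` the sum of the `k` largest plus the sum of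
the `l` largest Laplacian eigenvalues is at most `2m + k(l+1)`. -/
theorem twoParam {V : Type*} [Fintype V] [DecidableEq V] (G : SimpleGraph V)
    [DecidableRel G.Adj] (k l : ℕ) (hkl : k ≤ l) (hl : l + 1 ≤ Fintype.card V) :
    (∑ i : Fin (Fintype.card V), if (i : ℕ) < k then ev G i else 0) +
      (∑ i : Fin (Fintype.card V), if (i : ℕ) < l then ev G i else 0)
      ≤ 2 * (G.edgeFinset.card : ℝ) + k * (l + 1) := by
  set hA := G.isHermitian_lapMatrix ℝ with hhA
  let e : Fin (Fintype.card V) ≃ V := Fintype.equivOfCardEq (Fintype.card_fin _)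
  have hm : ∑ v : V, ∑ u : V, (if G.Adj v u then (1 : ℝ) else 0) = 2 * (G.edgeFinset.card : ℝ) := by
    have h1 := G.sum_degrees_eq_twice_card_edges
    have h2 : ∀ v, ∑ u : V, (if G.Adj v u then (1 : ℝ) else 0) = (G.degree v : ℝ) := by
      intro v
      rw [SimpleGraph.degree_eq_sum_if_adj]
    simp only [h2]
    exact_mod_cast h1
  have hpos : ∀ i, 0 ≤ hA.eigenvalues i := (G.posSemidef_lapMatrix ℝ).eigenvalues_nonneg
  rw [← hm]
  refine basisForm (Fintype.card V) rfl (fun v u => if G.Adj v u then (1 : ℝ) else 0)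
    (fun v u => by split_ifs <;> norm_num) (fun v u => by split_ifs <;> norm_num)
    (fun v u => by simp only [G.adj_comm]) (fun v => by simp)
    (fun i => ⇑(hA.eigenvectorBasis (e i))) ?_ (ev G) hA.eigenvalues₀_antitone ?_ ?_ ?_ k l hkl hl
  · have h1 := hA.eigenvectorBasis.toBasis.linearIndependent
    have h2 := h1.comp e e.injective
    have h3 := h2.map' (WithLp.linearEquiv 2 ℝ (V → ℝ)).toLinearMap
      (LinearMap.ker_eq_bot.mpr (WithLp.linearEquiv 2 ℝ (V → ℝ)).injective)
    have h4 : (fun i => ⇑(hA.eigenvectorBasis (e i))) =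
        (⇑(WithLp.linearEquiv 2 ℝ (V → ℝ)).toLinearMap ∘ ⇑hA.eigenvectorBasis.toBasis ∘ ⇑e) := by
      ext i v
      simp
    rw [h4]
    exact h3
  · intro i
    have := hpos (e i)
    simp only [Matrix.IsHermitian.eigenvalues, e, Equiv.symm_apply_apply] at this
    exact this
  · intro i v
    have h1 := hA.mulVec_eigenvectorBasis (e i)
    have h2 := congrFun h1 v
    rw [lap_apply] at h2
    rw [h2]
    simp [Matrix.IsHermitian.eigenvalues, e, ev]
  · have h1 := hA.trace_eq_sum_eigenvalues
    have h2 : (G.lapMatrix ℝ).trace = ∑ v : V, ∑ u : V, (if G.Adj v u then (1 : ℝ) else 0) := by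
      simp only [SimpleGraph.lapMatrix, Matrix.trace_sub, SimpleGraph.trace_adjMatrix, sub_zero,
        SimpleGraph.degMatrix, Matrix.trace_diagonal, SimpleGraph.degree_eq_sum_if_adj]
    rw [← h2, h1]
    simp only [Matrix.IsHermitian.eigenvalues, RCLike.ofReal_real_eq_id, id_eq, ev]
    exact (Equiv.sum_comp e.symm _).symm

end Pool.Agent.Helper827.Brou
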